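import Mathlib

set_option autoImplicit false

namespace Pool.Agent.H34.KRS

open MvPolynomial

/-- Integrality by valuations. -/
lemma mem_valuationSubring {L : Type*} [Field L] (V : ValuationSubring L) {t : ℕ}
    (x : Fin t → L) (a : Fin t → Fin t → L)
    (haV : ∀ i j, a i j ∈ V)
    (haU : ∀ j i i', i ≠ i' → (a i j - a i' j) ∈ V ∧ (a i j - a i' j)⁻¹ ∈ V ∧ a i j - a i' j ≠ 0)
    (hf : ∀ i, ∏ j, (x j - a i j) ∈ V) : ∀ j, x j ∈ V := by
  classical
  by_contra hcon
  push Not at hcon
  obtain ⟨j₀, hj₀⟩ := hcon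
  have hv : ∀ y : L, V.valuation y ≤ 1 ↔ y ∈ V := fun y => V.valuation_le_one_iff y
  -- for j with x j ∉ V, v (x j - a i j) > 1
  have h1 : ∀ i j, x j ∉ V → 1 < V.valuation (x j - a i j) := by
    intro i j hj
    rw [← not_le, hv]
    intro h
    exact hj (by simpa using V.add_mem _ _ h (haV i j))
  have h2 : ∀ i j, x j ∈ V → V.valuation (x j - a i j) ≤ 1 := by
    intro i j hj
    rw [hv]
    exact sub_mem hj (haV i j)
  have h3 : ∀ i, ∃ j, x j ∈ V ∧ V.valuation (x j - a i j) < 1 := by
    intro i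
    by_contra hc
    push Not at hc
    have hge : ∀ j, 1 ≤ V.valuation (x j - a i j) := by
      intro j
      by_cases hj : x j ∈ V
      · exact hc j hj
      · exact (h1 i j hj).le
    have hprod : 1 < V.valuation (∏ j, (x j - a i j)) := by
      rw [map_prod, ← Finset.mul_prod_erase Finset.univ _ (Finset.mem_univ j₀)]
      have hone : 1 ≤ ∏ j ∈ Finset.univ.erase j₀, V.valuation (x j - a i j) :=
        Finset.one_le_prod' (fun j _ => hge j)
      calc (1 : V.ValueGroup) < V.valuation (x j₀ - a i j₀) := h1 i j₀ hj₀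
        _ = V.valuation (x j₀ - a i j₀) * 1 := (mul_one _).symm
        _ ≤ _ := by gcongr
    exact absurd ((hv _).mpr (hf i)) (not_le.mpr hprod)
  choose σ hσ1 hσ2 using h3
  have hinj : Function.Injective σ := by
    intro i i' he
    by_contra hne
    obtain ⟨hd1, hd2, hd3⟩ := haU (σ i) i i' hne
    have hlt : V.valuation (a i (σ i) - a i' (σ i)) < 1 := by
      have e : a i (σ i) - a i' (σ i) = (x (σ i) - a i' (σ i)) - (x (σ i) - a i (σ i)) := by ring
      rw [e]
      refine lt_of_le_of_lt (Valuation.map_sub _ _ _) (max_lt ?_ (hσ2 i))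
      rw [he]; exact hσ2 i'
    have hinv : V.valuation (a i (σ i) - a i' (σ i))⁻¹ ≤ 1 := (hv _).mpr hd2
    rw [map_inv₀] at hinv
    have hpos : V.valuation (a i (σ i) - a i' (σ i)) ≠ 0 := by
      rw [Valuation.ne_zero_iff]; exact hd3
    have : V.valuation (a i (σ i) - a i' (σ i)) * (V.valuation (a i (σ i) - a i' (σ i)))⁻¹ < 1 := by
      calc _ ≤ V.valuation (a i (σ i) - a i' (σ i)) * 1 := by gcongr
        _ < 1 := by rw [mul_one]; exact hlt
    rw [mul_inv_cancel₀ hpos] at this
    exact absurd this (lt_irrefl _)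
  have hsurj : Function.Surjective σ := Finite.injective_iff_surjective.mp hinj
  obtain ⟨i, hi⟩ := hsurj j₀
  exact hj₀ (hi ▸ hσ1 i)

variable {k : Type*} [Field k] {t : ℕ}

/-- the polynomials of the system -/
noncomputable def F (a : Fin t → Fin t → k) (i : Fin t) : MvPolynomial (Fin t) k :=
  ∏ j, (X j - C (a i j))

/-- the subalgebra generated by the polynomials of the system -/
noncomputable abbrev R (a : Fin t → Fin t → k) : Subalgebra k (MvPolynomial (Fin t) k) :=
  Algebra.adjoin k (Set.range (F a))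

lemma isIntegral_X (a : Fin t → Fin t → k) (ha : ∀ j, Function.Injective (fun i => a i j)) (j : Fin t) :
    IsIntegral (R a) (X j : MvPolynomial (Fin t) k) := by
  classical
  let L := FractionRing (MvPolynomial (Fin t) k)
  let ι : MvPolynomial (Fin t) k →+* L := algebraMap _ _
  have hι : Function.Injective ι := IsFractionRing.injective _ _
  -- it suffices to show integrality in `L`
  rw [← isIntegral_algebraMap_iff (R := R a) (A := MvPolynomial (Fin t) k) (B := L) hι]
  by_contra hcon
  have hcon' : ι (X j) ∉ (integralClosure (R a) L).toSubring := hcon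
  obtain ⟨V, hV, hxV⟩ := Subring.exists_le_valuationSubring_of_isIntegrallyClosedIn hcon'
  apply hxV
  have hR : ∀ r : R a, ι (r : MvPolynomial (Fin t) k) ∈ V := by
    intro r
    apply hV
    exact (integralClosure (R a) L).algebraMap_mem r
  have hC : ∀ c : k, ι (C c) ∈ V := by
    intro c
    exact hR ⟨C c, (R a).algebraMap_mem c⟩
  refine mem_valuationSubring V (fun j => ι (X j)) (fun i j => ι (C (a i j))) (fun i j => hC _) ?_ ?_ j
  · intro j i i' hne
    have hne' : a i j - a i' j ≠ 0 := sub_ne_zero.mpr (fun h => hne (ha j h))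
    have e : ι (C (a i j)) - ι (C (a i' j)) = ι (C (a i j - a i' j)) := by simp
    rw [e]
    refine ⟨hC _, ?_, ?_⟩
    · have e2 : (ι (C (a i j - a i' j)))⁻¹ = ι (C ((a i j - a i' j)⁻¹)) := by
        apply inv_eq_of_mul_eq_one_right
        rw [← map_mul, ← map_mul, mul_inv_cancel₀ hne', map_one, map_one]
      rw [e2]; exact hC _
    · rw [Ne, map_eq_zero_iff _ hι, map_eq_zero_iff _ (C_injective (Fin t) k)]
      exact hne'
  · intro i
    have e : ∏ j, (ι (X j) - ι (C (a i j))) = ι (F a i) := by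
      rw [F, map_prod]
      exact Finset.prod_congr rfl (fun j _ => by rw [map_sub])
    rw [e]
    exact hR ⟨F a i, Algebra.subset_adjoin ⟨i, rfl⟩⟩

lemma isIntegral_all (a : Fin t → Fin t → k) (ha : ∀ j, Function.Injective (fun i => a i j))
    (θ : MvPolynomial (Fin t) k) : IsIntegral (R a) θ := by
  induction θ using MvPolynomial.induction_on with
  | C c => exact isIntegral_algebraMap (x := (⟨C c, (R a).algebraMap_mem c⟩ : R a))
  | add p q hp hq => exact hp.add hq
  | mul_X p j hp => exact hp.mul (isIntegral_X a ha j)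

lemma algInd (a : Fin t → Fin t → k) (ha : ∀ j, Function.Injective (fun i => a i j)) :
    AlgebraicIndependent k (F a) := by
  have hint : Algebra.IsIntegral (R a) (MvPolynomial (Fin t) k) := ⟨isIntegral_all a ha⟩
  have halg : Algebra.IsAlgebraic (Algebra.adjoin k (Set.range (F a))) (MvPolynomial (Fin t) k) :=
    hint.isAlgebraic
  refine (Algebra.IsAlgebraic.isTranscendenceBasis_of_lift_le_trdeg_of_finite k (F a) ?_).1
  rw [MvPolynomial.trdeg_of_isDomain]
  simp

lemma isIntegrallyClosed_R (a : Fin t → Fin t → k) (ha : ∀ j, Function.Injective (fun i => a i j)) :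
    IsIntegrallyClosed (R a) :=
  IsIntegrallyClosed.of_equiv (algInd a ha).aevalEquiv.toRingEquiv

/-- numerical inequality -/
lemma numer (D t E : ℕ) : ∃ m : ℕ, D * (m + 1 + E) ^ t < (D + 1) * (m + 1) ^ t := by
  refine ⟨(D + 1) * t * E, ?_⟩
  set N : ℝ := (((D + 1) * t * E + 1 : ℕ) : ℝ) with hN
  have hNpos : 0 < N := by rw [hN]; positivity
  have hE : (0 : ℝ) ≤ E := by positivity
  have h1 := one_add_mul_le_pow (a := -((E : ℝ) / (N + E))) (by
    have : (E : ℝ) / (N + E) ≤ 1 := by
      rw [div_le_one (by positivity)]; linarith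
    linarith) t
  have h2 : 1 + -((E : ℝ) / (N + E)) = N / (N + E) := by
    field_simp; ring
  rw [h2, div_pow, le_div_iff₀ (by positivity)] at h1
  have h3 : (D : ℝ) * (N + E) ^ t < (D + 1) * N ^ t := by
    have h4 : (D : ℝ) < (D + 1) * (1 + (t : ℝ) * -((E : ℝ) / (N + E))) := by
      have h5 : (t : ℝ) * (E / (N + E)) * (D + 1) < 1 := by
        rw [mul_div_assoc', div_mul_eq_mul_div, div_lt_one (by positivity)]
        rw [hN]; push_cast; nlinarith
      nlinarith
    calc (D : ℝ) * (N + E) ^ t < (D + 1) * (1 + (t : ℝ) * -((E : ℝ) / (N + E))) * (N + E) ^ t := by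
          apply mul_lt_mul_of_pos_right h4; positivity
      _ = (D + 1) * ((1 + (t : ℝ) * -((E : ℝ) / (N + E))) * (N + E) ^ t) := by ring
      _ ≤ (D + 1) * N ^ t := by
          apply mul_le_mul_of_nonneg_left h1; positivity
  have h6 : ((D * ((D + 1) * t * E + 1 + E) ^ t : ℕ) : ℝ) < (((D + 1) * ((D + 1) * t * E + 1) ^ t : ℕ) : ℝ) := by
    rw [hN] at h3
    push_cast at h3 ⊢
    exact h3
  exact_mod_cast h6

/-- multi-indices of total degree at most `m` -/
noncomputable def idx (t m : ℕ) : Finset (Fin t →₀ ℕ) :=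
  (Finset.range (m + 1)).biUnion (fun n => (Finset.univ : Finset (Fin t)).finsuppAntidiag n)

lemma mem_idx {t m : ℕ} {α : Fin t →₀ ℕ} : α ∈ idx t m ↔ ∑ i, α i ≤ m := by
  simp [idx, Finset.mem_biUnion, Finset.mem_finsuppAntidiag]

lemma card_idx (t m : ℕ) : (idx t m).card = (m + t).choose t := by
  rw [idx, Finset.card_biUnion]
  · rw [← Nat.sum_range_multichoose]
    refine Finset.sum_congr rfl (fun n _ => ?_)
    rw [Finset.card_finsuppAntidiag_nat_eq_multichoose]
    simp
  · intro n _ n' _ hne
    simp only [Function.onFun]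
    rw [Finset.disjoint_left]
    intro α h1 h2
    rw [Finset.mem_finsuppAntidiag] at h1 h2
    exact hne (h1.1.symm.trans h2.1)

lemma pow_le_card_idx (t m : ℕ) : (m + 1) ^ t ≤ t.factorial * (idx t m).card := by
  rw [card_idx, ← Nat.ascFactorial_eq_factorial_mul_choose]
  exact Nat.pow_succ_le_ascFactorial (m + 1) t

lemma mem_restrictDegree' {m : ℕ} {p : MvPolynomial (Fin t) k} :
    p ∈ restrictDegree (Fin t) k m ↔ ∀ l, degreeOf l p ≤ m := by
  rw [mem_restrictDegree]
  simp only [degreeOf_le_iff]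
  exact ⟨fun h l s hs => h s hs l, fun h s hs l => h l s hs⟩

lemma degreeOf_F (a : Fin t → Fin t → k) (i l : Fin t) : degreeOf l (F a i) ≤ 1 := by
  classical
  refine (degreeOf_prod_le l _ _).trans ?_
  calc ∑ j, degreeOf l (X j - C (a i j)) ≤ ∑ j, (if l = j then 1 else 0) := by
        refine Finset.sum_le_sum (fun j _ => ?_)
        refine (degreeOf_sub_le _ _ _).trans ?_
        rw [degreeOf_C, degreeOf_X]
        simp
    _ = 1 := by simp

/-- The family of products. -/
noncomputable def fam (a : Fin t → Fin t → k) (θ : MvPolynomial (Fin t) k) (α : Fin t →₀ ℕ) (i : ℕ) :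
    MvPolynomial (Fin t) k := (∏ j, F a j ^ (α j)) * θ ^ i

lemma fam_mem (a : Fin t → Fin t → k) (θ : MvPolynomial (Fin t) k) (m D : ℕ) (α : Fin t →₀ ℕ) (hα : α ∈ idx t m)
    (i : ℕ) (hi : i ≤ D) :
    fam a θ α i ∈ restrictDegree (Fin t) k (m + D * θ.totalDegree) := by
  rw [mem_restrictDegree']
  intro l
  refine (degreeOf_mul_le l _ _).trans (add_le_add ?_ ?_)
  · refine (degreeOf_prod_le l _ _).trans ?_
    rw [mem_idx] at hα
    refine le_trans (Finset.sum_le_sum (fun j _ => ?_)) hα
    refine (degreeOf_pow_le l _ _).trans ?_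
    calc α j * degreeOf l (F a j) ≤ α j * 1 := Nat.mul_le_mul le_rfl (degreeOf_F a j l)
      _ = α j := mul_one _
  · refine (degreeOf_pow_le l _ _).trans ?_
    exact Nat.mul_le_mul hi (degreeOf_le_totalDegree θ l)

lemma finrank_restrictDegree_le (M : ℕ) :
    Module.Finite k (restrictDegree (Fin t) k M) ∧ Module.finrank k (restrictDegree (Fin t) k M) ≤ (M + 1) ^ t := by
  classical
  let B : Module.Basis {n : Fin t →₀ ℕ | ∀ i, n i ≤ M} k (restrictDegree (Fin t) k M) :=
    basisRestrictSupport k {n : Fin t →₀ ℕ | ∀ i, n i ≤ M}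
  let g : {n : Fin t →₀ ℕ | ∀ i, n i ≤ M} → (Fin t → Fin (M + 1)) := fun n i => ⟨n.1 i, Nat.lt_succ_of_le (n.2 i)⟩
  have hg : Function.Injective g := by
    intro n n' h
    apply Subtype.ext
    ext i
    have := congrFun h i
    simpa [g] using this
  have : Finite {n : Fin t →₀ ℕ | ∀ i, n i ≤ M} := Finite.of_injective g hg
  refine ⟨Module.Finite.of_basis B, ?_⟩
  rw [Module.finrank_eq_nat_card_basis B]
  refine (Nat.card_le_card_of_injective g hg).trans ?_
  simp

lemma exists_poly (a : Fin t → Fin t → k) (ha : ∀ j, Function.Injective (fun i => a i j))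
    (θ : MvPolynomial (Fin t) k) :
    ∃ Q : Polynomial (R a), Q ≠ 0 ∧ Q.natDegree ≤ t.factorial ∧ Polynomial.aeval θ Q = 0 := by
  classical
  set D := t.factorial with hD
  obtain ⟨m, hm⟩ := numer D t (D * θ.totalDegree)
  set M := m + D * θ.totalDegree with hM
  obtain ⟨hfin, hrank⟩ := finrank_restrictDegree_le (k := k) (t := t) M
  let v : (idx t m) × Fin (D + 1) → restrictDegree (Fin t) k M := fun x =>
    ⟨fam a θ x.1.1 x.2, fam_mem a θ m D x.1.1 x.1.2 x.2 (Nat.lt_succ_iff.mp x.2.2)⟩
  have hdep : ¬ LinearIndependent k v := by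
    intro h
    have h1 := h.fintype_card_le_finrank
    rw [Fintype.card_prod, Fintype.card_fin, Fintype.card_coe] at h1
    have h2 := h1.trans hrank
    have h3 := pow_le_card_idx t m
    have h4 : D * ((idx t m).card * (D + 1)) ≤ D * (M + 1) ^ t := Nat.mul_le_mul le_rfl h2
    have h5 : (D + 1) * (m + 1) ^ t ≤ (D + 1) * (D * (idx t m).card) := Nat.mul_le_mul le_rfl h3
    have h6 : M + 1 = m + 1 + D * θ.totalDegree := by omega
    rw [h6] at h4
    have h7 : (D + 1) * (D * (idx t m).card) = D * ((idx t m).card * (D + 1)) := by ring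
    omega
  rw [Fintype.not_linearIndependent_iff] at hdep
  obtain ⟨g, hg0, ⟨⟨α₀, i₀⟩, hgne⟩⟩ := hdep
  -- the coefficient polynomials
  let P : Fin (D + 1) → MvPolynomial (Fin t) k := fun i => ∑ α : idx t m, monomial α.1 (g (α, i))
  let Fr : Fin t → R a := fun j => ⟨F a j, Algebra.subset_adjoin ⟨j, rfl⟩⟩
  let r : Fin (D + 1) → R a := fun i => aeval Fr (P i)
  have hr : ∀ i, ((r i : R a) : MvPolynomial (Fin t) k) = aeval (F a) (P i) := by
    intro i
    have := MvPolynomial.map_aeval Fr (algebraMap (R a) (MvPolynomial (Fin t) k)) (P i)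
    show algebraMap (R a) (MvPolynomial (Fin t) k) (aeval Fr (P i)) = _
    rw [this]
    rfl
  have hPcoeff : ∀ i (α : idx t m), coeff α.1 (P i) = g (α, i) := by
    intro i α
    simp only [P, coeff_sum, coeff_monomial]
    rw [Finset.sum_eq_single α]
    · simp
    · intro β _ hne
      rw [if_neg (fun h => hne (Subtype.ext h))]
    · intro h; exact absurd (Finset.mem_univ _) h
  let Q : Polynomial (R a) := ∑ i : Fin (D + 1), Polynomial.C (r i) * Polynomial.X ^ (i : ℕ)
  have hQcoeff : ∀ i : Fin (D + 1), Q.coeff i = r i := by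
    intro i
    simp only [Q, Polynomial.finsetSum_coeff, Polynomial.coeff_C_mul_X_pow]
    rw [Finset.sum_eq_single i]
    · simp
    · intro j _ hne
      rw [if_neg (fun h => hne (Fin.ext h.symm))]
    · intro h; exact absurd (Finset.mem_univ _) h
  refine ⟨Q, ?_, ?_, ?_⟩
  · intro hQ
    have h1 : r i₀ = 0 := by rw [← hQcoeff i₀, hQ, Polynomial.coeff_zero]
    have h2 : aeval (F a) (P i₀) = 0 := by rw [← hr, h1]; rfl
    have h3 : P i₀ = 0 := by
      apply algInd a ha
      rw [h2, map_zero]
    apply hgne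
    rw [← hPcoeff i₀ α₀, h3, coeff_zero]
  · refine Polynomial.natDegree_sum_le_of_forall_le _ _ (fun i _ => ?_)
    refine (Polynomial.natDegree_C_mul_X_pow_le _ _).trans ?_
    exact Nat.lt_succ_iff.mp i.2
  · have h1 : Polynomial.aeval θ Q = ∑ i : Fin (D + 1), aeval (F a) (P i) * θ ^ (i : ℕ) := by
      simp only [Q, map_sum, map_mul, Polynomial.aeval_C, map_pow, Polynomial.aeval_X]
      refine Finset.sum_congr rfl (fun i _ => ?_)
      rw [← hr]; rfl
    rw [h1]
    have h2 : ∀ i, aeval (F a) (P i) * θ ^ (i : ℕ) = ∑ α : idx t m, g (α, i) • fam a θ α.1 i := by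
      intro i
      simp only [P, map_sum, aeval_monomial, Finset.sum_mul, fam]
      refine Finset.sum_congr rfl (fun α _ => ?_)
      rw [Algebra.smul_def, ← mul_assoc]
      congr 2
      rw [Finsupp.prod_fintype]
      intro j; exact pow_zero _
    simp only [h2]
    have h3 := congrArg (Subtype.val) hg0
    rw [Fintype.sum_prod_type, Finset.sum_comm] at h3
    simpa [v] using h3

/-- A linear form separating finitely many points. -/
lemma exists_sep [Infinite k] (S : Finset (Fin t → k)) :
    ∃ c : k, Set.InjOn (fun x : Fin t → k => ∑ j, x j * c ^ (j : ℕ)) S := by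
  classical
  let p : (Fin t → k) → (Fin t → k) → Polynomial k := fun x y =>
    ∑ j : Fin t, Polynomial.C (x j - y j) * Polynomial.X ^ (j : ℕ)
  have hp : ∀ x y, x ≠ y → p x y ≠ 0 := by
    intro x y hne h0
    apply hne
    ext j
    have h1 : (p x y).coeff j = x j - y j := by
      simp only [p, Polynomial.finsetSum_coeff, Polynomial.coeff_C_mul_X_pow]
      rw [Finset.sum_eq_single j]
      · simp
      · intro i _ hne
        rw [if_neg (fun h => hne (Fin.ext h.symm))]
      · intro h; exact absurd (Finset.mem_univ _) h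
    rw [h0, Polynomial.coeff_zero] at h1
    exact (sub_eq_zero.mp h1.symm)
  obtain ⟨c, hc⟩ := Infinite.exists_notMem_finset (S.biUnion (fun x => S.biUnion (fun y => (p x y).roots.toFinset)))
  refine ⟨c, ?_⟩
  intro x hx y hy hxy
  by_contra hne
  apply hc
  simp only [Finset.mem_biUnion, Multiset.mem_toFinset]
  refine ⟨x, hx, y, hy, ?_⟩
  rw [Polynomial.mem_roots (hp x y hne), Polynomial.IsRoot.def]
  simp only [p, Polynomial.eval_finsetSum, Polynomial.eval_mul, Polynomial.eval_C, Polynomial.eval_pow,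
    Polynomial.eval_X, sub_mul, Finset.sum_sub_distrib]
  exact sub_eq_zero.mpr hxy

/-- The Kollár–Rónyai–Szabó lemma over an infinite field. -/
theorem krs_infinite [Infinite k] (a : Fin t → Fin t → k) (ha : ∀ j, Function.Injective (fun i => a i j))
    (b : Fin t → k) (S : Finset (Fin t → k)) (hS : ∀ x ∈ S, ∀ i, ∏ j, (x j - a i j) = b i) :
    S.card ≤ t.factorial := by
  classical
  rcases S.eq_empty_or_nonempty with rfl | ⟨x₀, hx₀⟩
  · simp
  obtain ⟨c, hc⟩ := exists_sep S
  set θ : MvPolynomial (Fin t) k := ∑ j : Fin t, X j * C (c ^ (j : ℕ)) with hθ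
  have hθe : ∀ x : Fin t → k, aeval x θ = ∑ j, x j * c ^ (j : ℕ) := by
    intro x
    rw [hθ, map_sum]
    simp
  have hclosed := isIntegrallyClosed_R a ha
  obtain ⟨Q, hQ0, hQd, hQr⟩ := exists_poly a ha θ
  set P := minpoly (R a) θ with hP
  have hPmonic : P.Monic := minpoly.monic (isIntegral_all a ha θ)
  have hPd : P.natDegree ≤ t.factorial := by
    have := minpoly.IsIntegrallyClosed.degree_le_of_ne_zero (s := θ) hQ0 hQr
    exact (Polynomial.natDegree_le_natDegree this).trans hQd
  let e : (Fin t → k) → (R a →ₐ[k] k) := fun x => (aeval x).comp (R a).val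
  have he : ∀ x ∈ S, e x = e x₀ := by
    intro x hx
    refine AlgHom.adjoin_ext (fun y hy => ?_)
    obtain ⟨i, rfl⟩ := hy
    have h1 : ∀ z : Fin t → k, aeval z (F a i) = ∏ j, (z j - a i j) := by
      intro z; simp [F, map_prod]
    show aeval x (F a i) = aeval x₀ (F a i)
    rw [h1, h1, hS x hx, hS x₀ hx₀]
  have hroot : ∀ x ∈ S, (P.map (e x₀ : R a →+* k)).IsRoot (aeval x θ) := by
    intro x hx
    rw [Polynomial.IsRoot.def, Polynomial.eval_map, ← he x hx]
    have h1 : Polynomial.aeval θ P = 0 := minpoly.aeval _ _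
    have h2 := Polynomial.hom_eval₂ P (algebraMap (R a) (MvPolynomial (Fin t) k))
      ((aeval x : MvPolynomial (Fin t) k →ₐ[k] k) : MvPolynomial (Fin t) k →+* k) θ
    rw [← Polynomial.aeval_def, h1, map_zero] at h2
    exact h2.symm
  have hmonic : (P.map (e x₀ : R a →+* k)).Monic := hPmonic.map _
  calc S.card = (S.image (fun x => aeval x θ)).card := by
        rw [Finset.card_image_of_injOn]
        intro x hx y hy hxy
        simp only [hθe] at hxy
        exact hc hx hy hxy
    _ ≤ (P.map (e x₀ : R a →+* k)).roots.toFinset.card := by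
        apply Finset.card_le_card
        intro y hy
        rw [Finset.mem_image] at hy
        obtain ⟨x, hx, rfl⟩ := hy
        rw [Multiset.mem_toFinset, Polynomial.mem_roots hmonic.ne_zero]
        exact hroot x hx
    _ ≤ (P.map (e x₀ : R a →+* k)).roots.card := Multiset.toFinset_card_le _
    _ ≤ (P.map (e x₀ : R a →+* k)).natDegree := Polynomial.card_roots' _
    _ ≤ P.natDegree := Polynomial.natDegree_map_le
    _ ≤ t.factorial := hPd

/-- The Kollár–Rónyai–Szabó lemma. -/
theorem krs (a : Fin t → Fin t → k) (ha : ∀ j, Function.Injective (fun i => a i j))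
    (b : Fin t → k) (S : Finset (Fin t → k)) (hS : ∀ x ∈ S, ∀ i, ∏ j, (x j - a i j) = b i) :
    S.card ≤ t.factorial := by
  classical
  let K := AlgebraicClosure k
  let ι : k →+* K := algebraMap k K
  have hι : Function.Injective ι := ι.injective
  let f : (Fin t → k) → (Fin t → K) := fun x j => ι (x j)
  have hf : Function.Injective f := by
    intro x y h
    ext j
    exact hι (congrFun h j)
  rw [← Finset.card_image_of_injective S hf]
  refine krs_infinite (fun i j => ι (a i j)) ?_ (fun i => ι (b i)) _ ?_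
  · intro j i i' h
    exact ha j (hι h)
  · intro y hy i
    rw [Finset.mem_image] at hy
    obtain ⟨x, hx, rfl⟩ := hy
    rw [← hS x hx i, map_prod]
    simp [f]

end Pool.Agent.H34.KRS
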